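import Pool.Agent.MP_66cee2_co.T2.Spec
import Pool.Agent.MP_66cee2_co.D.TAlg

/-
Rows Alg and Top: linear algebra of one step.
-/

namespace Pool.Agent.MP_66cee2_co.T2

open Set Module Pool.Agent.MP_66cee2_co.X Pool.Agent.MP_66cee2_co.D

namespace Algx

variable {n : ℕ}

theorem l_add (a b v : Ix n → ℝ) : lz (a + b) v = lz a v + lz b v := add_dotProduct a b _

theorem l_smul (c : ℝ) (a v : Ix n → ℝ) : lz (c • a) v = c * lz a v := smul_dotProduct c a _

theorem l_sub (a b v : Ix n → ℝ) : lz (a - b) v = lz a v - lz b v := sub_dotProduct a b _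

theorem r_add (a b v : Ix n → ℝ) : lz v (a + b) = lz v a + lz v b := by
  rw [lz_comm, l_add, lz_comm a, lz_comm b]

theorem r_smul (c : ℝ) (a v : Ix n → ℝ) : lz v (c • a) = c * lz v a := by
  rw [lz_comm, l_smul, lz_comm a]

theorem r_sub (a b v : Ix n → ℝ) : lz v (a - b) = lz v a - lz v b := by
  rw [lz_comm, l_sub, lz_comm a, lz_comm b]

/-- the functional given by a vector. -/
def fn (q : Ix n → ℝ) : (Ix n → ℝ) →ₗ[ℝ] ℝ where
  toFun w := lz w q
  map_add' a b := l_add a b q
  map_smul' c a := l_smul c a q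

/-- a functional that does not vanish lowers the rank. -/
theorem drop {W W' : Submodule ℝ (Ix n → ℝ)} (h : W' ≤ W) {w : Ix n → ℝ} (hw : w ∈ W)
    (hw' : w ∉ W') : finrank ℝ W' + 1 ≤ finrank ℝ W :=
  Submodule.finrank_lt_finrank_of_lt (lt_of_le_of_ne h fun e => hw' (e ▸ hw))

/-- two different lifts have product different from one. -/
theorem ne_one {q q' : Ix n → ℝ} (h : Gv q) (h' : Gv q') (hne : q ≠ q') : lz q q' ≠ 1 := by
  intro e
  have h0 : lz (q - q') (q - q') = 0 := by
    rw [l_sub, r_sub, r_sub, h.2, h'.2, lz_comm q' q, e]; ring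
  have hs : (q - q') (Sum.inr true) = 0 := by
    have := h.1.trans h'.1.symm
    exact sub_eq_zero.2 this
  rw [lz_eq, hs, zero_mul, mul_zero, add_zero, add_zero] at h0
  have h1 : ∑ i, (q - q') (Sum.inl i) * (q - q') (Sum.inl i) = 0 := by linarith
  have h2 : ∀ i, q (Sum.inl i) = q' (Sum.inl i) := fun i => sub_eq_zero.1
    (mul_self_eq_zero.1 ((Finset.sum_eq_zero_iff_of_nonneg fun i _ => mul_self_nonneg _).1 h1 i
      (Finset.mem_univ i)))
  have a1 := h.2
  have a2 := h'.2
  have b1 : q (Sum.inr true) = 1 := h.1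
  have b2 : q' (Sum.inr true) = 1 := h'.1
  rw [lz_eq, b1] at a1
  rw [lz_eq, b2] at a2
  simp only [h2] at a1
  apply hne
  funext a
  rcases a with i | b
  · exact h2 i
  · cases b
    · linarith
    · exact b1.trans b2.symm

end Algx

open Algx in
theorem sAlg : SAlg := by
  intro n W q q' hq hq' g g' hne hnd
  have c : lz q' q = lz q q' := lz_comm _ _
  have t1 := ne_one g g' hne
  refine ⟨?_, fun ht => ⟨fun w hw => ?_, q + q', ⟨W.add_mem hq hq', ?_, ?_⟩, ?_, ?_⟩, fun ht => ?_⟩
  · have h1 : finrank ℝ (nxt W q q) + 1 ≤ finrank ℝ W :=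
      drop (fun w hw => hw.1) hq fun h => one_ne_zero (g.2.symm.trans h.2.1)
    obtain ⟨w, hw, hw'⟩ : ∃ w ∈ nxt W q q, lz w q' ≠ 0 := by
      by_contra hh
      push Not at hh
      have h2 : q' - lz q q' • q = 0 := by
        refine hnd _ (W.sub_mem hq' (W.smul_mem _ hq)) fun v hv => ?_
        have h3 : lz (v - lz v q • q) q = 0 := by rw [l_sub, l_smul, g.2, mul_one, sub_self]
        have h4 := hh _ ⟨W.sub_mem hv (W.smul_mem _ hq), h3, h3⟩
        rw [l_sub, l_smul] at h4
        rw [r_sub, r_smul]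
        linarith
      have h5 := congrFun h2 sI
      rw [Pi.sub_apply, Pi.smul_apply, g.1, g'.1, smul_eq_mul, mul_one] at h5
      exact t1 (sub_eq_zero.1 h5).symm
    have h2 : finrank ℝ (nxt W q q') + 1 ≤ finrank ℝ (nxt W q q) :=
      drop (fun w hw => ⟨hw.1, hw.2.1, hw.2.1⟩) hw fun h => hw' h.2.2
    omega
  · refine TAlgx.perp_nonneg (x := q + q') (fun e => ?_) ?_ ?_
    · have := congrFun e sI
      rw [Pi.add_apply, g.1, g'.1] at this
      norm_num at this
    · rw [l_add, r_add, r_add, g.2, g'.2, c, ht]; norm_num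
    · rw [r_add, hw.2.1, hw.2.2, add_zero]
  · rw [l_add, g.2, c, ht]; norm_num
  · rw [l_add, g'.2, ht]; norm_num
  · intro e
    have := congrFun e sI
    rw [Pi.add_apply, g.1, g'.1] at this
    norm_num at this
  · rw [l_add, r_add, r_add, g.2, g'.2, c, ht]; norm_num
  · have h1 : 1 + lz q q' ≠ 0 := fun e => ht (by linarith)
    have h2 : 1 - lz q q' ≠ 0 := fun e => t1 (by linarith)
    have h3 : 1 - lz q q' ^ 2 ≠ 0 := by
      have : 1 - lz q q' ^ 2 = (1 + lz q q') * (1 - lz q q') := by ring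
      rw [this]
      exact mul_ne_zero h1 h2
    refine ⟨fun x hx h => hnd x hx.1 fun v hv => ?_, fun f hf => ?_⟩
    · have hm : v - ((lz v q - lz q q' * lz v q') / (1 - lz q q' ^ 2)) • q -
          ((lz v q' - lz q q' * lz v q) / (1 - lz q q' ^ 2)) • q' ∈ nxt W q q' := by
        refine ⟨W.sub_mem (W.sub_mem hv (W.smul_mem _ hq)) (W.smul_mem _ hq'), ?_, ?_⟩
        · rw [l_sub, l_sub, l_smul, l_smul, g.2, c]
          field_simp
          ring
        · rw [l_sub, l_sub, l_smul, l_smul, g'.2]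
          field_simp
          ring
      have h4 := h _ hm
      rw [l_sub, l_sub, l_smul, l_smul, lz_comm q x, lz_comm q' x, hx.2.1, hx.2.2] at h4
      linarith
    · have a1 : lz f q = 1 := by rw [lz_comm, hf.2 q hq, g.1]
      have a2 : lz f q' = 1 := by rw [lz_comm, hf.2 q' hq', g'.1]
      have b1 : lz (f - (1 + lz q q')⁻¹ • (q + q')) q = 0 := by
        rw [l_sub, l_smul, l_add, a1, g.2, c, inv_mul_cancel₀ h1, sub_self]
      have b2 : lz (f - (1 + lz q q')⁻¹ • (q + q')) q' = 0 := by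
        rw [l_sub, l_smul, l_add, a2, g'.2, add_comm (lz q q') 1, inv_mul_cancel₀ h1, sub_self]
      refine ⟨f - (1 + lz q q')⁻¹ • (q + q'),
        ⟨⟨W.sub_mem hf.1 (W.smul_mem _ (W.add_mem hq hq')), b1, b2⟩, fun v hv => ?_⟩, ?_⟩
      · rw [r_sub, r_smul, r_add, hv.2.1, hv.2.2, hf.2 v hv.1]
        ring
      · rw [r_sub, r_smul, r_add, b1, b2, l_sub, l_smul, l_add, lz_comm q f, lz_comm q' f, a1, a2]
        field_simp
        ring

open Algx in
theorem sTop : STop := by
  refine ⟨fun n => ⟨fun x _ h => ?_, by simp, Pi.single (Sum.inr false) 1, ⟨Submodule.mem_top,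
    fun v _ => ?_⟩, ?_⟩, fun n W f w h hf hw g => ?_, fun h => ?_, fun κ a b h1 h2 h3 => ?_⟩
  · funext a
    rcases a with i | b
    · have := h (Pi.single (Sum.inl i) 1) Submodule.mem_top
      simpa [lz, Jv] using this
    · have := h (Pi.single (Sum.inr !b) 1) Submodule.mem_top
      simpa [lz, Jv] using this
  · rw [lz_eq]
    simp
  · rw [lz_eq]
    simp
  · have hw0 : (⟨w, hw⟩ : W) ≠ 0 := fun e => by
      have := g.1
      rw [show w = 0 from congrArg Subtype.val e] at this
      simp at this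
    obtain ⟨c, hc⟩ : ∃ c : ℝ, c • (⟨w, hw⟩ : W) = ⟨f, hf.1⟩ := by
      have h1 : finrank ℝ W = 1 :=
        le_antisymm h (finrank_pos_iff_exists_ne_zero.2 ⟨_, hw0⟩)
      exact (finrank_eq_one_iff_of_nonzero' _ hw0).1 h1 _
    have e : f = c • w := (congrArg Subtype.val hc).symm
    have h2 := hf.2 w hw
    rw [e, r_smul, g.2, g.1, mul_one] at h2
    rw [e, h2, one_smul, g.2]
    unfold Ai
    rw [sub_self, zero_div]
    exact isIntegral_zero
  · unfold Ai at h
    have e : ((1 - 0) / 2 : ℝ) = algebraMap ℚ ℝ (1 / 2) := by simp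
    rw [e, isIntegral_algebraMap_iff (algebraMap ℚ ℝ).injective] at h
    obtain ⟨y, hy⟩ := IsIntegrallyClosed.isIntegral_iff.1 h
    have h2 : (2 * y : ℚ) = 1 := by
      have : (y : ℚ) = 1 / 2 := by simpa using hy
      rw [this]; norm_num
    have h3 : 2 * y = 1 := by exact_mod_cast h2
    omega
  · unfold Ai at *
    have e : (1 - κ) / 2 = (1 - (κ - a)) / 2 + (1 - (κ - b)) / 2 - (1 - (κ - a - b)) / 2 := by ring
    rw [e]
    exact (h1.add h2).sub h3

end Pool.Agent.MP_66cee2_co.T2
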