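import Pool.Agent.MP_66cee2_co.T2.Spec
import Pool.Agent.MP_66cee2_co.D.TStart
import Pool.Agent.MP_66cee2_co.D.TSlice

/-
The induction of the topological theorem for lifts.
-/

namespace Pool.Agent.MP_66cee2_co.T2

open Set Metric Module Pool.Agent.MP_66cee2_co.X Pool.Agent.MP_66cee2_co.D
open scoped RealInnerProductSpace

namespace Indx

/-- the shape of a state. -/
def Sh {d : ℕ} (δ : ℝ) (B : Set (E d)) (m k : ℕ) : Prop :=
  (m = 1 → B.Nonempty) ∧ (m = 2 → Two δ B k) ∧ (3 ≤ m → Pol δ B m k)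

theorem lab_nxt {d n : ℕ} {O : (Ix n → ℝ) → Set (E d)} {B U : Set (E d)}
    {W : Submodule ℝ (Ix n → ℝ)} {q q' : Ix n → ℝ} (h : Lab O B W)
    (hU : ∀ w, ∀ y ∈ O w, y ∈ U → lz w q = 0 ∧ lz w q' = 0) : Lab O (B ∩ U) (nxt W q q') :=
  fun w y hy hb => ⟨h w y hy hb.1, hU w y hy hb.2⟩

theorem dom_univ {d : ℕ} {G B : Set (E d)} (h : Dom G B) : Dom G univ :=
  ⟨h.1, h.2.1, subset_univ _, h.2.2.2⟩

end Indx

open Indx in
theorem sTT2_of (hA : SAlg) (hT : STop) (hC : SCol) (hN : SNull) (hS : SStep) (hV : SConv)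
    (hD : SDbl) (hR : SCirc) (hL : SLa) : STT2 := by
  intro d n O hd hn hO hf
  obtain ⟨t1, t2, t3, t4⟩ := hT
  have hd0 : (0 : ℝ) < (d : ℝ) + 2 := by positivity
  obtain ⟨δ, hδ, hδ1⟩ : ∃ δ : ℝ, 0 < δ ∧ 100 * ((d : ℝ) + 2) * δ = 1 :=
    ⟨1 / (100 * ((d : ℝ) + 2)), by positivity, by field_simp⟩
  have hk : ∀ k : ℕ, k ≤ d → 100 * ((k : ℝ) + 2) * δ ≤ 1 := fun k h => by
    have : (k : ℝ) ≤ d := by exact_mod_cast h
    nlinarith
  have hδ2 : δ ≤ 1 / 100 := by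
    have := hk 0 (Nat.zero_le _)
    push_cast at this
    linarith
  have sh : ∀ (B : Set (E d)) (m k : ℕ), 1 ≤ k → One δ B m k → Sh δ B m k := fun B m k h1 h => by
    obtain ⟨-, a2, a3, a4⟩ := (hV d δ B hδ hδ2).1 m k h1 h
    exact ⟨fun e => a2 (by omega), fun e => a4 (by omega), fun e => a3 (by omega)⟩
  have main : ∀ (m k : ℕ) (B : Set (E d)) (W : Submodule ℝ (Ix n → ℝ)) (f : Ix n → ℝ), 1 ≤ m →
      1 ≤ k → m + k = d + 1 → IsOpen B → Lab O B W → Nd W → Rep W f → finrank ℝ W + 1 ≤ 2 * m →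
      Sh δ B m k → Ai (lz f f) := by
    intro m
    induction m using Nat.strong_induction_on with
    | _ m ih =>
    intro k B W f hm hk1 hmk hB hl hnd hr hfr hs
    rcases Nat.lt_or_ge m 3 with h3 | h3
    · rcases Nat.lt_or_ge m 2 with h2 | h2
      · obtain ⟨x, hxB, hx⟩ := hO.dense.inter_open_nonempty B hB (hs.1 (by omega))
        obtain ⟨w, hw⟩ := mem_iUnion.1 hx
        exact t2 n W f w (by omega) hr (hl w x hw hxB) (hf w ⟨x, hw⟩)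
      · by_contra hc
        obtain ⟨s, hs'⟩ := hC n W f (by omega) hr hc
        have h100 : 100 * (k : ℝ) * δ ≤ 1 := by
          have := hk k (by omega)
          nlinarith
        obtain ⟨A, a1, a2, a3, a4⟩ := hR d k δ B hk1 hδ h100 (hs.2.1 (by omega))
        refine hL d n O B A (by omega) hO hB a1 a2 a3 a4 s ?_
        rintro v v' ⟨y, hy, hyB⟩ ⟨y', hy', hyB'⟩ h
        exact hs' v (hl v y hy hyB) v' (hl v' y' hy' hyB') (hf v ⟨y, hy⟩) (hf v' ⟨y', hy'⟩) h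
    · obtain ⟨m, rfl⟩ : ∃ j, m = j + 2 := ⟨m - 2, by omega⟩
      obtain ⟨G, hG, hG'⟩ := hD d m k δ B (by omega) hk1 hδ (hk k (by omega)) hB (hs.2.2 h3)
      obtain ⟨q, q', ζ, e, U, ⟨x, hx, hxG⟩, s2, s3, s4, s5, s6, s7, s8⟩ :=
        hS d n O G δ hO hδ (dom_univ hG)
      obtain ⟨o1, G', hG1, hG1'⟩ := hG' ζ s3 e U s5 s6 s7
      obtain ⟨p, p', ζ', e', U', ⟨x', hx', hxG'⟩, r2, r3, r4, r5, r6, r7, r8⟩ :=
        hS d n O G' δ hO hδ (dom_univ hG1)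
      obtain ⟨o2, o3, o4⟩ := hG1' ζ' r3 e' U' r5 r7
      have l1 := lab_nxt hl s8
      have l2 := lab_nxt l1 r8
      have l3 := lab_nxt hl r8
      have gq := hf q ⟨x, hx⟩
      have gq' := hf q' ⟨ζ, s2⟩
      have gp := hf p ⟨x', hx'⟩
      have gp' := hf p' ⟨ζ', r2⟩
      have pW := l1 p x' hx' (hG1.2.2.1 hxG')
      have pW' := l1 p' ζ' r2 (hG1.2.2.1 r3)
      obtain ⟨b1, b2, b3⟩ := hA n W q q' (hl q x hx (hG.2.2.1 hxG)) (hl q' ζ s2 (hG.2.2.1 s3))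
        gq gq' s4 hnd
      by_cases c1 : lz q q' = -1
      · exact ((hN d n O hO (m + 1) _ _ (hB.inter s6) l1 (b2 c1) (by omega)).1
          ((hV d δ _ hδ hδ2).1 _ _ (by omega) o1).1 (by omega)).elim
      obtain ⟨n1, b4⟩ := b3 c1
      obtain ⟨f1, f1r, f1e⟩ := b4 f hr
      obtain ⟨e1, e2, e3⟩ := hA n _ p p' pW pW' gp gp' r4 n1
      by_cases c2 : lz p p' = -1
      · exact ((hN d n O hO m _ _ ((hB.inter s6).inter r6) l2 (e2 c2) (by omega)).1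
          ((hV d δ _ hδ hδ2).1 _ _ (by omega) o2).1 (by omega)).elim
      obtain ⟨n2, e4⟩ := e3 c2
      obtain ⟨f2, f2r, f2e⟩ := e4 f1 f1r
      obtain ⟨g1, -, g3⟩ := hA n W p p' pW.1 pW'.1 gp gp' r4 hnd
      obtain ⟨n3, g4⟩ := g3 c2
      obtain ⟨f3, f3r, f3e⟩ := g4 f hr
      have i1 := ih (m + 1) (by omega) (k + 1) _ _ f1 (by omega) (by omega) (by omega)
        (hB.inter s6) l1 n1 f1r (by omega) (sh _ _ _ (by omega) o1)
      have i2 := ih m (by omega) (k + 2) _ _ f2 (by omega) (by omega) (by omega)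
        ((hB.inter s6).inter r6) l2 n2 f2r (by omega) (sh _ _ _ (by omega) o2)
      have i3 := ih (m + 1) (by omega) (k + 1) _ _ f3 (by omega) (by omega) (by omega)
        (hB.inter r6) l3 n3 f3r (by omega)
        ⟨fun h => by omega, fun h => o4 (by omega),
          fun h => (sh _ _ _ (by omega) (o3 (by omega))).2.2 h⟩
      rw [f1e] at i1 f2e
      rw [f2e] at i2
      rw [f3e] at i3
      exact t4 _ _ _ i1 i3 i2
  obtain ⟨nd, fr, f, hr, hff⟩ := t1 n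
  have hl : Lab O univ (⊤ : Submodule ℝ (Ix n → ℝ)) := fun _ _ _ _ => Submodule.mem_top
  have hu : Dom (univ : Set (E d)) univ := ⟨isOpen_univ, isPreconnected_univ, subset_rfl,
    EuclideanSpace.single ⟨0, by omega⟩ 1, mem_univ _, 0, mem_univ _, by simp⟩
  obtain ⟨q, q', ζ, e, U, ⟨x, hx, -⟩, s2, -, s4, s5, s6, s7, s8⟩ := hS d n O univ δ hO hδ hu
  obtain ⟨v1, v2⟩ := (hV d δ U hδ hδ2).2 ζ e s5 s7
  have l1 := lab_nxt hl s8
  rw [univ_inter] at l1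
  obtain ⟨b1, b2, b3⟩ := hA n ⊤ q q' Submodule.mem_top Submodule.mem_top (hf q ⟨x, hx⟩)
    (hf q' ⟨ζ, s2⟩) s4 nd
  by_cases c1 : lz q q' = -1
  · exact (hN d n O hO (d - 1) _ _ s6 l1 (b2 c1) (by omega)).2
      (TStartx.first sTSlice d U ζ e hd s5 v2) (by omega)
  obtain ⟨n1, b4⟩ := b3 c1
  obtain ⟨f1, f1r, f1e⟩ := b4 f hr
  obtain ⟨m, hm⟩ : ∃ m, d = m + 2 := ⟨d - 2, by omega⟩
  obtain ⟨G, hG, hG'⟩ := hD d m 1 δ U (by omega) le_rfl hδ (hk 1 (by omega)) s6 (hm ▸ v1)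
  obtain ⟨p, p', ζ', e', U', ⟨x', hx', hxG'⟩, r2, r3, r4, r5, r6, r7, r8⟩ :=
    hS d n O G δ hO hδ (dom_univ hG)
  obtain ⟨o1, -⟩ := hG' ζ' r3 e' U' r5 r6 r7
  have l2 := lab_nxt l1 r8
  have l3 := lab_nxt hl r8
  rw [univ_inter] at l3
  have gp := hf p ⟨x', hx'⟩
  have gp' := hf p' ⟨ζ', r2⟩
  obtain ⟨e1, e2, e3⟩ := hA n _ p p' (l1 p x' hx' (hG.2.2.1 hxG')) (l1 p' ζ' r2 (hG.2.2.1 r3))
    gp gp' r4 n1
  by_cases c2 : lz p p' = -1
  · exact (hN d n O hO (m + 1) _ _ (s6.inter r6) l2 (e2 c2) (by omega)).1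
      ((hV d δ _ hδ hδ2).1 _ _ (by omega) o1).1 (by omega)
  obtain ⟨n2, e4⟩ := e3 c2
  obtain ⟨f2, f2r, f2e⟩ := e4 f1 f1r
  obtain ⟨g1, -, g3⟩ := hA n ⊤ p p' Submodule.mem_top Submodule.mem_top gp gp' r4 nd
  obtain ⟨n3, g4⟩ := g3 c2
  obtain ⟨f3, f3r, f3e⟩ := g4 f hr
  have i1 := main d 1 _ _ f1 (by omega) le_rfl rfl s6 l1 n1 f1r (by omega)
    ⟨fun h => by omega, fun h => by omega, fun _ => v1⟩
  have i2 := main (m + 1) 2 _ _ f2 (by omega) (by omega) (by omega) (s6.inter r6) l2 n2 f2r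
    (by omega) (sh _ _ _ (by omega) o1)
  have i3 := main d 1 _ _ f3 (by omega) le_rfl rfl r6 l3 n3 f3r (by omega)
    ⟨fun h => by omega, fun h => by omega, fun _ => ((hV d δ U' hδ hδ2).2 ζ' e' r5 r7).1⟩
  rw [f1e] at i1 f2e
  rw [f2e] at i2
  rw [f3e] at i3
  exact t3 (hff ▸ t4 _ _ _ i1 i3 i2)

end Pool.Agent.MP_66cee2_co.T2
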