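import Pool.Agent.MP_66cee2_co.D.SpecT

/-
The topological theorem for labels that are lifts, one dimension more: rows and induction.
-/

namespace Pool.Agent.MP_66cee2_co.T2

open Set Metric Module Pool.Agent.MP_66cee2_co.X Pool.Agent.MP_66cee2_co.D
open scoped RealInnerProductSpace

/-! ### Algebra -/

/-- normalised vectors: lifts of points. -/
def Gv {n : ℕ} (v : Ix n → ℝ) : Prop := v sI = 1 ∧ lz v v = 1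

/-- all labels are lifts. -/
def Lf {d n : ℕ} (O : (Ix n → ℝ) → Set (E d)) : Prop := ∀ v, (O v).Nonempty → Gv v

/-- the form is nondegenerate on `W`. -/
def Nd {n : ℕ} (W : Submodule ℝ (Ix n → ℝ)) : Prop := ∀ x ∈ W, (∀ v ∈ W, lz v x = 0) → x = 0

/-- `f` represents the coordinate `sI` on `W`. -/
def Rep {n : ℕ} (W : Submodule ℝ (Ix n → ℝ)) (f : Ix n → ℝ) : Prop :=
  f ∈ W ∧ ∀ v ∈ W, lz v f = v sI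

/-- the form is semidefinite on `W` with a nonzero null vector. -/
def Nl {n : ℕ} (W : Submodule ℝ (Ix n → ℝ)) : Prop :=
  (∀ w ∈ W, 0 ≤ lz w w) ∧ ∃ x ∈ W, x ≠ 0 ∧ lz x x = 0

/-- the arithmetic condition. -/
def Ai (κ : ℝ) : Prop := IsIntegral ℤ ((1 - κ) / 2)

/-- row Alg: one step. -/
def SAlg : Prop :=
  ∀ (n : ℕ) (W : Submodule ℝ (Ix n → ℝ)) (q q' : Ix n → ℝ), q ∈ W → q' ∈ W → Gv q → Gv q' →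
    q ≠ q' → Nd W → finrank ℝ (nxt W q q') + 2 ≤ finrank ℝ W ∧
      (lz q q' = -1 → Nl (nxt W q q')) ∧
      (lz q q' ≠ -1 → Nd (nxt W q q') ∧ ∀ f, Rep W f → ∃ f', Rep (nxt W q q') f' ∧
        lz f' f' = lz f f - 2 / (1 + lz q q'))

/-- row Top: the whole space, lines, and arithmetic. -/
def STop : Prop :=
  (∀ n : ℕ, Nd (⊤ : Submodule ℝ (Ix n → ℝ)) ∧ finrank ℝ (⊤ : Submodule ℝ (Ix n → ℝ)) = n + 2 ∧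
    ∃ f, Rep (⊤ : Submodule ℝ (Ix n → ℝ)) f ∧ lz f f = 0) ∧
  (∀ (n : ℕ) (W : Submodule ℝ (Ix n → ℝ)) (f w : Ix n → ℝ), finrank ℝ W ≤ 1 → Rep W f → w ∈ W →
    Gv w → Ai (lz f f)) ∧
  ¬ Ai 0 ∧ ∀ κ a b : ℝ, Ai (κ - a) → Ai (κ - b) → Ai (κ - a - b) → Ai κ

/-- row Col: a circle of lifts. -/
def SCol : Prop :=
  ∀ (n : ℕ) (W : Submodule ℝ (Ix n → ℝ)) (f : Ix n → ℝ), finrank ℝ W ≤ 3 → Rep W f →
    ¬ Ai (lz f f) → ∃ s : (Ix n → ℝ) → Bool, ∀ v ∈ W, ∀ v' ∈ W, Gv v → Gv v' → lz v v' = 0 →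
      s v ≠ s v'

/-- row Null: a null vector is no loss. -/
def SNull : Prop :=
  ∀ (d n : ℕ) (O : (Ix n → ℝ) → Set (E d)), Fam O →
    ∀ (m : ℕ) (B : Set (E d)) (W : Submodule ℝ (Ix n → ℝ)), IsOpen B → Lab O B W → Nl W → 1 ≤ m →
      (Inv B m → finrank ℝ W + 1 ≤ 2 * m → False) ∧
      (Arcs B m → finrank ℝ W ≤ 2 * m + 1 → False)

/-! ### Geometry -/

/-- the unit sphere around `ζ` without two caps lies in `U`. -/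
def BandD {d : ℕ} (δ : ℝ) (U : Set (E d)) (ζ e : E d) : Prop :=
  ∀ v : E d, ‖v‖ = 1 → δ ≤ ‖v - e‖ → δ ≤ ‖v + e‖ → ζ + v ∈ U

/-- an open connected set with a unit pair. -/
def Dom {d : ℕ} (G B : Set (E d)) : Prop :=
  IsOpen G ∧ IsPreconnected G ∧ G ⊆ B ∧ ∃ y ∈ G, ∃ z ∈ G, ‖y - z‖ = 1

/-- a sphere up to one small ball. -/
def One {d : ℕ} (δ : ℝ) (B : Set (E d)) (m k : ℕ) : Prop :=
  ∃ (o : E d) (V : Submodule ℝ (E d)) (ρ : ℝ) (y₀ : E d), m ≤ finrank ℝ V ∧ 0 < ρ ∧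
    1 / 2 + 1 / (2 * (k : ℝ)) ≤ ρ ^ 2 ∧ ρ ^ 2 ≤ 4 / 5 ∧ ∀ y ∈ Sph o V ρ, δ ≤ ‖y - y₀‖ → y ∈ B

/-- a sphere up to two small balls. -/
def Two {d : ℕ} (δ : ℝ) (B : Set (E d)) (k : ℕ) : Prop :=
  ∃ (o : E d) (V : Submodule ℝ (E d)) (ρ : ℝ) (y₁ y₂ : E d), 2 ≤ finrank ℝ V ∧ 0 < ρ ∧
    1 / 2 + 1 / (2 * (k : ℝ)) ≤ ρ ^ 2 ∧ ρ ^ 2 ≤ 1 ∧
    ∀ y ∈ Sph o V ρ, 2 * δ ≤ ‖y - y₁‖ → 2 * δ ≤ ‖y - y₂‖ → y ∈ B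

/-- a sphere up to two small balls around opposite poles. -/
def Pol {d : ℕ} (δ : ℝ) (B : Set (E d)) (m k : ℕ) : Prop :=
  ∃ (o : E d) (V : Submodule ℝ (E d)) (ρ : ℝ) (a : E d), m ≤ finrank ℝ V ∧ 0 < ρ ∧
    1 / 2 + 1 / (2 * (k : ℝ)) ≤ ρ ^ 2 ∧ ρ ^ 2 ≤ 1 ∧ a ∈ V ∧ ‖a‖ = 1 ∧
    ∀ y ∈ Sph o V ρ, 2 * δ ≤ ‖y - (o + ρ • a)‖ → 2 * δ ≤ ‖y - (o - ρ • a)‖ → y ∈ B

/-- row Step: a contact point. -/
def SStep : Prop :=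
  ∀ (d n : ℕ) (O : (Ix n → ℝ) → Set (E d)) (G : Set (E d)) (δ : ℝ), Fam O → 0 < δ → Dom G univ →
    ∃ (q q' : Ix n → ℝ) (ζ e : E d) (U : Set (E d)), (O q ∩ G).Nonempty ∧ ζ ∈ O q' ∧ ζ ∈ G ∧
      q ≠ q' ∧ ‖e‖ = 1 ∧ IsOpen U ∧ BandD δ U ζ e ∧
      ∀ w, ∀ y ∈ O w, y ∈ U → lz w q = 0 ∧ lz w q' = 0

/-- row Conv: relations between the shapes. -/
def SConv : Prop :=
  ∀ (d : ℕ) (δ : ℝ) (B : Set (E d)), 0 < δ → δ ≤ 1 / 100 →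
    (∀ m k : ℕ, 1 ≤ k → One δ B m k →
      Inv B m ∧ (1 ≤ m → B.Nonempty) ∧ (1 ≤ m → Pol δ B m k) ∧ (2 ≤ m → Two δ B k)) ∧
    ∀ ζ e : E d, ‖e‖ = 1 → BandD δ B ζ e → Pol δ B d 1 ∧ Band univ B ζ e

/-- row Cap: a sphere of unit neighbours meets one cap only. -/
def SCap : Prop :=
  ∀ (d : ℕ) (δ : ℝ) (U : Set (E d)) (ζ e o : E d) (V : Submodule ℝ (E d)) (ρ : ℝ), 0 < δ →
    δ ≤ 1 / 100 → ‖e‖ = 1 → BandD δ U ζ e → 0 < ρ → ρ ^ 2 ≤ 4 / 5 →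
    (∀ y ∈ Sph o V ρ, ‖y - ζ‖ = 1) → ∃ y₀, ∀ y ∈ Sph o V ρ, δ ≤ ‖y - y₀‖ → y ∈ U

/-- row Dbl: two steps, and the second step alone. -/
def SDbl : Prop :=
  ∀ (d m k : ℕ) (δ : ℝ) (B : Set (E d)), 1 ≤ m → 1 ≤ k → 0 < δ → 100 * ((k : ℝ) + 2) * δ ≤ 1 →
    IsOpen B → Pol δ B (m + 2) k →
    ∃ G, Dom G B ∧ ∀ ζ ∈ G, ∀ (e : E d) (U : Set (E d)), ‖e‖ = 1 → IsOpen U → BandD δ U ζ e →
      One δ (B ∩ U) (m + 1) (k + 1) ∧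
      ∃ G', Dom G' (B ∩ U) ∧ ∀ ζ' ∈ G', ∀ (e' : E d) (U' : Set (E d)), ‖e'‖ = 1 →
        BandD δ U' ζ' e' → One δ (B ∩ U ∩ U') m (k + 2) ∧
          (2 ≤ m → One δ (B ∩ U') (m + 1) (k + 1)) ∧ (m = 1 → Two δ (B ∩ U') (k + 1))

/-- row Circ: an arc with a unit pair all of whose points have partners. -/
def SCirc : Prop :=
  ∀ (d k : ℕ) (δ : ℝ) (B : Set (E d)), 1 ≤ k → 0 < δ → 100 * (k : ℝ) * δ ≤ 1 → Two δ B k →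
    ∃ A : Set (E d), IsPreconnected A ∧ A ⊆ B ∧ (∃ y ∈ A, ∃ z ∈ A, ‖y - z‖ = 1) ∧
      ∀ y ∈ A, ∃ m : E d, ‖m‖ = 1 ∧ y + m ∈ B

/-- row La: the parity lemma. -/
def SLa : Prop :=
  ∀ (d n : ℕ) (O : (Ix n → ℝ) → Set (E d)) (B A : Set (E d)), 2 ≤ d → Fam O → IsOpen B →
    IsPreconnected A → A ⊆ B → (∃ y ∈ A, ∃ z ∈ A, ‖y - z‖ = 1) →
    (∀ y ∈ A, ∃ m : E d, ‖m‖ = 1 ∧ y + m ∈ B) → ∀ s : (Ix n → ℝ) → Bool,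
      ¬ ∀ v v', (O v ∩ B).Nonempty → (O v' ∩ B).Nonempty → lz v v' = 0 → s v ≠ s v'

/-- the topological theorem for lifts. -/
def STT2 : Prop :=
  ∀ (d n : ℕ) (O : (Ix n → ℝ) → Set (E d)), 3 ≤ d → n + 1 ≤ 2 * d → Fam O → Lf O → False

end Pool.Agent.MP_66cee2_co.T2
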