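import Pool.Agent.MP_66cee2_co.T2.Spec
import Pool.Agent.MP_66cee2_co.H53.Circ
import Pool.Agent.MP_66cee2_co.H59.LA
import Pool.Agent.MP_66cee2_co.H84T.Col

/-
Rows Circ, La and Col from the landed lemmas.
-/

namespace Pool.Agent.MP_66cee2_co.T2

open Set Module Pool.Agent.MP_66cee2_co.X Pool.Agent.MP_66cee2_co.D

theorem sCirc : SCirc := by
  rintro d k δ B hk hδ h ⟨o, V, ρ, y₁, y₂, h1, h2, h3, h4, h5⟩
  have hk' : (1 : ℝ) ≤ k := by exact_mod_cast hk
  have h6 : 0 < 1 / (2 * (k : ℝ)) := by positivity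
  have h7 : 2 * δ ≤ 1 / (2 * (k : ℝ)) := by
    rw [le_div_iff₀ (by positivity)]
    nlinarith
  have h8 : ρ ≤ 1 := by nlinarith
  exact circ2 B o y₁ y₂ V ρ (2 * δ) h1 h2 (by linarith) (by nlinarith) h5

theorem sLa : SLa := fun _ _ O B A hd hO hB a1 a2 a3 a4 s =>
  laD hd O hO.opn hO.dense (fun v v' => lz v v' = 0) hO.orth B A hB a1 a2 a3 a4 s

theorem gv_lift {n : ℕ} (p : E n) : Gv (lift p) := ⟨rfl, by rw [lz_lift]; simp⟩

theorem lift_of_gv {n : ℕ} {v : Ix n → ℝ} (h : Gv v) : ∃ p : E n, v = lift p := by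
  refine ⟨WithLp.toLp 2 fun i => v (Sum.inl i), ?_⟩
  have h1 : v (Sum.inr true) = 1 := h.1
  have h2 := h.2
  rw [lz_eq, h1] at h2
  funext a
  rcases a with i | b
  · rfl
  · cases b
    · simp only [lift]
      rw [EuclideanSpace.real_norm_sq_eq]
      simp only [sq]
      linarith
    · exact h1

theorem sCol : SCol := by
  intro n W f hW hf hA
  by_contra hh
  push Not at hh
  obtain ⟨a, ha, e⟩ := H84.colL W hW f hf.1 hf.2 fun s hs => by
    obtain ⟨v, hv, v', hv', g, g', h, h'⟩ := hh s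
    exact hs v hv v' hv' (lift_of_gv g) (lift_of_gv g') h h'
  refine hA ?_
  have e2 : a = algebraMap ℝ ℂ ((1 - lz f f) / 2) := by
    simp only [Complex.coe_algebraMap]
    push_cast
    linear_combination e / 2
  rw [e2, isIntegral_algebraMap_iff (algebraMap ℝ ℂ).injective] at ha
  exact ha

end Pool.Agent.MP_66cee2_co.T2
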